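import Pool.Agent.Helper10.GO.GoalsP2
import Pool.Agent.Helper35.GO.ETD

/-!
# Project GO (MP_6af536_nt), packet ETD2: the Mordell-Lang property along an orbit

The same proof as helper35's `etd`; the polynomial `u` is given.
-/

set_option autoImplicit false

open MvPolynomial

noncomputable section

namespace Pool.Agent.Helper60.GO

open Pool.Agent.Helper10.GO
open Pool.Agent.Helper35.GO (ev_map lift_poly jac_map)

theorem etd2 (hEMB : S_EMB) (hPDM : S_PDM2) : S_ETD2 := by
  classical
  intro K _ _ N f u x φ hu hx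
  set al : K →+* ℂ := algebraMap K ℂ with hal
  set S : Set ℂ := (⋃ i, al '' (((f i).coeffs : Finset K) : Set K)) ∪ al '' ((φ.coeffs : Finset K) : Set K) ∪
    al '' ((u.coeffs : Finset K) : Set K) ∪ Set.range (x 0) with hS
  have hfin : S.Finite := by
    refine (((Set.finite_iUnion fun i => ?_).union ?_).union ?_).union (Set.finite_range _)
    · exact (Finset.finite_toSet _).image _
    · exact (Finset.finite_toSet _).image _
    · exact (Finset.finite_toSet _).image _
  obtain ⟨p, hp, σ, hp3, hσ⟩ := hEMB S hfin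
  set g : Algebra.adjoin ℤ S →+* ℂ := (Algebra.adjoin ℤ S).val.toRingHom with hg
  have hgi : Function.Injective g := Subtype.val_injective
  have hlift : ∀ P : MvPolynomial (Fin N) K, al '' ((P.coeffs : Finset K) : Set K) ⊆ S →
      ∃ P' : MvPolynomial (Fin N) (Algebra.adjoin ℤ S), map g P' = map al P := by
    intro P hP
    refine lift_poly g (map al P) fun m hm => ?_
    have h1 : (map al P).coeff m = al (P.coeff m) := coeff_map _ _ _
    have h2 : m ∈ P.support := by
      rw [mem_support_iff] at hm ⊢
      intro h0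
      apply hm
      rw [h1, h0, map_zero]
    have h3 : al (P.coeff m) ∈ S :=
      hP ⟨_, Finset.mem_coe.2 (coeff_mem_coeffs m (mem_support_iff.1 h2)), rfl⟩
    exact ⟨⟨_, Algebra.subset_adjoin h3⟩, h1.symm⟩
  have hf : ∀ i, ∃ P' : MvPolynomial (Fin N) (Algebra.adjoin ℤ S), map g P' = map al (f i) :=
    fun i => hlift _ fun z hz => Or.inl (Or.inl (Or.inl (Set.mem_iUnion.2 ⟨i, hz⟩)))
  choose f' hf' using hf
  obtain ⟨φ', hφ'⟩ := hlift φ fun z hz => Or.inl (Or.inl (Or.inr hz))
  obtain ⟨u', hu'⟩ := hlift u fun z hz => Or.inl (Or.inr hz)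
  set x' : ℕ → Fin N → Algebra.adjoin ℤ S := fun n =>
    Nat.rec (fun i => ⟨x 0 i, Algebra.subset_adjoin (Or.inr ⟨i, rfl⟩)⟩)
      (fun _ y i => eval y (f' i)) n with hx'
  have hxs : ∀ n i, x' (n + 1) i = eval (x' n) (f' i) := fun n i => rfl
  have hgx : ∀ n i, g (x' n i) = x n i := by
    intro n
    induction n with
    | zero => intro i; rfl
    | succ n ih =>
      intro i
      rw [hxs, ev_map, hf', hx, eval_map, aeval_def]
      congr 1
      funext j
      exact ih j
  have hgev : ∀ (n : ℕ) (P' : MvPolynomial (Fin N) (Algebra.adjoin ℤ S))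
      (P : MvPolynomial (Fin N) K), map g P' = map al P → g (eval (x' n) P') = aeval (x n) P := by
    intro n P' P hP
    rw [ev_map, hP, eval_map, aeval_def]
    have : (fun i => g (x' n i)) = x n := funext (hgx n)
    rw [this]
  have hjac : map g (jac f').det = map al (jac f).det := by
    rw [← jac_map, ← jac_map]
    have h1 : (jac fun i => map g (f' i)) = jac fun i => map al (f i) := by
      congr 1
      funext i
      exact hf' i
    rw [h1]
  have hdet : ∀ n, eval (x' n) u' * eval (x' n) (jac f').det = 1 := by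
    intro n
    apply hgi
    rw [map_mul, map_one, hgev n u' u hu', hgev n _ _ hjac]
    exact hu n
  have hJ' : ∀ n, IsUnit (eval (fun i => σ (x' n i)) (jac fun i => map σ (f' i)).det) := by
    intro n
    rw [jac_map, ← ev_map]
    refine IsUnit.of_mul_eq_one (σ (eval (x' n) u')) ?_
    rw [← map_mul, mul_comm, hdet, map_one]
  have key := hPDM p N (fun i => map σ (f' i)) (fun n i => σ (x' n i)) (map σ φ') hp3 hJ'
    (fun n i => by rw [hxs, ev_map])
  have hiff : ∀ n, eval (fun i => σ (x' n i)) (map σ φ') = 0 ↔ aeval (x n) φ = 0 := by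
    intro n
    rw [← ev_map, map_eq_zero_iff σ hσ, ← map_eq_zero_iff g hgi, hgev n φ' φ hφ']
  obtain ⟨q, hq, n₀, h⟩ := key
  refine ⟨q, hq, n₀, fun n hn => ?_⟩
  exact (hiff n).symm.trans ((h n hn).trans (hiff (n + q)))

end Pool.Agent.Helper60.GO
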